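import Pool.Agent.Helper11.PV.St

/-!
# Project PV (MP_e12aa9_pr): module PIV, differences of `PH` and pivotal absent edges
-/

set_option autoImplicit false

namespace Pool.Agent.Helper79.PV

open Finset Pool.Agent.Helper82.CN Pool.Agent.Helper11.PV

variable {V : Type} [Fintype V] [DecidableEq V]

omit [Fintype V] in
lemma gr_diag (e : Sym2 V) (ω : Sym2 V → Bool) (he : e.IsDiag) (b : Bool) :
    gr (Function.update ω e b) = gr ω := by
  ext u v
  simp only [gr]
  refine and_congr_right fun huv => ?_
  rw [Function.update_of_ne]
  intro h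
  rw [← h] at he
  exact huv (Sym2.mk_isDiag_iff.1 he)

omit [Fintype V] in
lemma gr_mono (e : Sym2 V) (ω : Sym2 V → Bool) :
    gr (Function.update ω e false) ≤ gr (Function.update ω e true) := by
  intro u v h
  obtain ⟨huv, h2⟩ := h
  refine ⟨huv, ?_⟩
  by_cases hs : s(u, v) = e
  · rw [hs, Function.update_self]
  · rw [Function.update_of_ne hs] at h2 ⊢
    exact h2

omit [Fintype V] in
lemma gr_adj (e : Sym2 V) (ω : Sym2 V → Bool) (u v : V)
    (h : (gr (Function.update ω e true)).Adj u v) :
    (gr (Function.update ω e false)).Adj u v ∨ s(u, v) = e := by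
  obtain ⟨huv, h2⟩ := h
  by_cases hs : s(u, v) = e
  · exact Or.inr hs
  · left
    refine ⟨huv, ?_⟩
    rw [Function.update_of_ne hs] at h2 ⊢
    exact h2

lemma dd_cases (hPHB : StPHB) (l : ℕ) (e : Sym2 V) (ω : Sym2 V → Bool) :
    (Ph l (gr (Function.update ω e true)) = Ph l (gr (Function.update ω e false)) ∧
      DD (PH l) e ω = 0) ∨
    (Ph l (gr (Function.update ω e true)) = Ph l (gr (Function.update ω e false)) + 1 ∧
      DD (PH l) e ω = 1) := by
  obtain ⟨-, h2, h3, -⟩ := hPHB V l
  have hle := h2 _ _ (gr_mono e ω)
  have hle' : Ph l (gr (Function.update ω e true)) ≤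
      Ph l (gr (Function.update ω e false)) + 1 := by
    induction e using Sym2.ind with
    | _ x y =>
      refine h3 _ _ x fun u v h => ?_
      rcases gr_adj s(x, y) ω u v h with h4 | h4
      · exact Or.inl h4
      · rcases Sym2.eq_iff.1 h4 with ⟨h5, -⟩ | ⟨-, h5⟩
        · exact Or.inr (Or.inl h5)
        · exact Or.inr (Or.inr h5)
  unfold DD PH
  rcases hle.eq_or_lt with h | h
  · left
    refine ⟨h.symm, ?_⟩
    rw [h, sub_self]
  · right
    have h5 : Ph l (gr (Function.update ω e true)) =
        Ph l (gr (Function.update ω e false)) + 1 := by omega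
    refine ⟨h5, ?_⟩
    rw [h5]
    push_cast
    ring

theorem tPIV (hPHB : StPHB) : Pool.Agent.Helper11.PV.StPIV := by
  classical
  intro V _ _ l
  refine ⟨fun e ω he => ?_, fun e ω => ?_, fun ω a ha => ?_⟩
  · unfold DD PH
    rw [gr_diag e ω he true, gr_diag e ω he false, sub_self]
  · rcases dd_cases hPHB l e ω with h | h
    · exact Or.inl h.2
    · exact Or.inr h.2
  · -- an optimal pair
    have hne : {m | ∃ (U : Finset V) (k : ℕ), PC (gr ω) U k ∧ m = l * k + U.card}.Nonempty := by
      refine ⟨_, Finset.univ, 0, ⟨fun _ => 0, ?_, ?_⟩, rfl⟩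
      · intro v hv
        exact absurd (Finset.mem_univ v) hv
      · intro u v hu
        exact absurd (Finset.mem_univ u) hu
    obtain ⟨U, k, ⟨c, hc1, hc2⟩, hm⟩ := Nat.sInf_mem hne
    have hPh : Ph l (gr ω) = l * k + U.card := hm
    -- the pairs
    set Pr : Finset (V × V) := Finset.univ.filter
      (fun z : V × V => (z.1 ∉ U ∧ z.2 ∉ U) ∧ c z.1 = c z.2) with hPr
    set E : Finset (Sym2 V) := Finset.univ.filter
      (fun e : Sym2 V => ω e = false ∧ DD (PH l) e ω = 1) with hE
    have hsub : E ⊆ Pr.image (fun z => s(z.1, z.2)) := by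
      intro e he
      rw [hE, Finset.mem_filter] at he
      obtain ⟨-, he0, he1⟩ := he
      have hf : Function.update ω e false = ω := by
        rw [← he0]
        exact Function.update_eq_self e ω
      rcases dd_cases hPHB l e ω with h | h
      · rw [h.2] at he1
        exact absurd he1 zero_ne_one
      · have h1 := h.1
        rw [hf] at h1
        -- the pair is not feasible for the larger graph
        have hnot : ¬ PC (gr (Function.update ω e true)) U k := by
          intro hPC
          have h2 : Ph l (gr (Function.update ω e true)) ≤ l * k + U.card :=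
            Nat.sInf_le ⟨U, k, hPC, rfl⟩
          omega
        have hex : ∃ u v, u ∉ U ∧ v ∉ U ∧ (gr (Function.update ω e true)).Adj u v ∧
            c u = c v := by
          by_contra hcon
          apply hnot
          refine ⟨c, hc1, fun u v hu hv huv heq => hcon ⟨u, v, hu, hv, huv, heq⟩⟩
        obtain ⟨u, v, hu, hv, huv, heq⟩ := hex
        rw [Finset.mem_image]
        refine ⟨(u, v), ?_, ?_⟩
        · rw [hPr, Finset.mem_filter]
          exact ⟨Finset.mem_univ _, ⟨hu, hv⟩, heq⟩
        · rcases gr_adj e ω u v huv with h4 | h4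
          · rw [hf] at h4
            exact absurd heq (hc2 u v hu hv h4)
          · exact h4
    have hcard : Pr.card ≤ Fintype.card V * a := by
      have h1 : Pr.card = ∑ u : V, (Finset.univ.filter
          (fun v : V => (u ∉ U ∧ v ∉ U) ∧ c u = c v)).card := by
        rw [hPr, Finset.card_filter, ← Finset.univ_product_univ, Finset.sum_product]
        refine Finset.sum_congr rfl fun u _ => ?_
        rw [Finset.card_filter]
      rw [h1]
      calc ∑ u : V, (Finset.univ.filter (fun v : V => (u ∉ U ∧ v ∉ U) ∧ c u = c v)).card
          ≤ ∑ _u : V, a := by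
            refine Finset.sum_le_sum fun u _ => ?_
            apply ha
            intro x hx y hy hxy
            rw [Finset.mem_filter] at hx hy
            by_contra hne'
            rw [Bool.not_eq_false] at hne'
            exact hc2 x y hx.2.1.2 hy.2.1.2 ⟨hxy, hne'⟩ (hx.2.2.symm.trans hy.2.2)
        _ = Fintype.card V * a := by
            rw [Finset.sum_const, Finset.card_univ, smul_eq_mul]
    have hEc : E.card ≤ Fintype.card V * a :=
      (Finset.card_le_card hsub).trans (Finset.card_image_le.trans hcard)
    have hsum : ∑ e : Sym2 V, (if ω e = false then DD (PH l) e ω else 0) = E.card := by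
      rw [hE, Finset.card_filter]
      push_cast
      refine Finset.sum_congr rfl fun e _ => ?_
      by_cases h : ω e = false
      · rcases dd_cases hPHB l e ω with h' | h'
        · simp [h, h'.2]
        · simp [h, h'.2]
      · simp [h]
    rw [hsum]
    exact_mod_cast hEc

end Pool.Agent.Helper79.PV
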