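import Pool.Agent.Helper61.PV.St

set_option autoImplicit false

namespace Pool.Agent.Helper79.PV

open Pool.Agent.Helper61.PV Finset

/-- the weight of a prime -/
noncomputable def aR (p : ℕ) : ℝ := 1 / ((p : ℝ) - 1)

theorem ratio_Rho (n : ℕ) (hn : 1 ≤ n) :
    (n : ℝ) / Nat.totient n = ∏ p ∈ n.primeFactors, (1 + aR p) := by
  have h1 : (Nat.totient n : ℝ) = n * ∏ p ∈ n.primeFactors, (1 - (p : ℝ)⁻¹) := by
    have := congrArg (fun x : ℚ => (x : ℝ)) (Nat.totient_eq_mul_prod_factors n)
    push_cast at this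
    exact this
  have hn0 : (n : ℝ) ≠ 0 := by positivity
  rw [h1, ← div_div, div_self hn0, one_div, ← Finset.prod_inv_distrib]
  refine Finset.prod_congr rfl fun p hp => ?_
  have hp2 : (2 : ℝ) ≤ p := by exact_mod_cast (Nat.prime_of_mem_primeFactors hp).two_le
  have hp1 : (p : ℝ) - 1 ≠ 0 := by linarith
  have hp0 : (p : ℝ) ≠ 0 := by linarith
  unfold aR
  have e : 1 - (p : ℝ)⁻¹ = (p - 1) / p := by
    field_simp
  rw [e, inv_div]
  field_simp
  ring

theorem aR_nonneg {p : ℕ} (hp : 1 ≤ p) : 0 ≤ aR p := by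
  unfold aR
  have : (1 : ℝ) ≤ p := by exact_mod_cast hp
  exact div_nonneg zero_le_one (by linarith)

theorem sum_Rho (P : Finset ℕ) (hP : ∀ p ∈ P, p.Prime) : ∀ J : ℕ,
    ∑ k ∈ Icc 1 J, ∏ p ∈ P, (1 + if p ∣ k then aR p else 0) ≤ J * ∏ p ∈ P, (1 + aR p / p) := by
  induction P using Finset.induction_on with
  | empty =>
    intro J
    simp
  | insert p P hp ih =>
    intro J
    have hpp : p.Prime := hP p (mem_insert_self _ _)
    have hP' : ∀ q ∈ P, q.Prime := fun q hq => hP q (mem_insert_of_mem hq)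
    set G : ℕ → ℝ := fun k => ∏ q ∈ P, (1 + if q ∣ k then aR q else 0) with hG
    have hPi : 0 ≤ ∏ q ∈ P, (1 + aR q / q) := by
      refine Finset.prod_nonneg fun q hq => ?_
      have := aR_nonneg (hP' q hq).one_le
      positivity
    have hap := aR_nonneg hpp.one_le
    have hp0 : (0 : ℝ) < p := by exact_mod_cast hpp.pos
    have e1 : ∑ k ∈ Icc 1 J, ∏ q ∈ insert p P, (1 + if q ∣ k then aR q else 0) =
        ∑ k ∈ Icc 1 J, G k + aR p * ∑ k ∈ (Icc 1 J).filter (fun k => p ∣ k), G k := by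
      rw [Finset.sum_filter, Finset.mul_sum, ← Finset.sum_add_distrib]
      refine Finset.sum_congr rfl fun k _ => ?_
      rw [Finset.prod_insert hp]
      simp only [hG]
      split_ifs
      · ring
      · ring
    have e2 : ∑ k ∈ (Icc 1 J).filter (fun k => p ∣ k), G k = ∑ j ∈ Icc 1 (J / p), G j := by
      symm
      refine Finset.sum_bij (fun j _ => p * j) ?_ ?_ ?_ ?_
      · intro j hj
        rw [mem_Icc] at hj
        rw [mem_filter, mem_Icc]
        have h3 : j * p ≤ J := (Nat.le_div_iff_mul_le hpp.pos).1 hj.2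
        refine ⟨⟨Nat.mul_pos hpp.pos hj.1, by rw [mul_comm]; exact h3⟩, Dvd.intro _ rfl⟩
      · intro i _ j _ hij
        exact Nat.eq_of_mul_eq_mul_left hpp.pos hij
      · intro k hk
        rw [mem_filter, mem_Icc] at hk
        obtain ⟨⟨h1, h2⟩, j, rfl⟩ := hk
        refine ⟨j, ?_, rfl⟩
        rw [mem_Icc]
        refine ⟨Nat.pos_of_mul_pos_left h1, ?_⟩
        rw [Nat.le_div_iff_mul_le hpp.pos, mul_comm]
        exact h2
      · intro j _
        simp only [hG]
        refine Finset.prod_congr rfl fun q hq => ?_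
        have hqp : q ≠ p := by
          rintro rfl
          exact hp hq
        have hiff : q ∣ p * j ↔ q ∣ j := by
          rw [(hP' q hq).dvd_mul]
          constructor
          · rintro (h | h)
            · exact absurd ((Nat.prime_dvd_prime_iff_eq (hP' q hq) hpp).1 h) hqp
            · exact h
          · exact Or.inr
        simp only [hiff]
    rw [e1, e2, Finset.prod_insert hp]
    have i1 := ih hP' J
    have i2 := ih hP' (J / p)
    have i3 : ((J / p : ℕ) : ℝ) ≤ (J : ℝ) / p := Nat.cast_div_le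
    calc ∑ k ∈ Icc 1 J, G k + aR p * ∑ j ∈ Icc 1 (J / p), G j
        ≤ J * ∏ q ∈ P, (1 + aR q / q) + aR p * ((J / p) * ∏ q ∈ P, (1 + aR q / q)) := by
          refine add_le_add i1 (mul_le_mul_of_nonneg_left (i2.trans ?_) hap)
          exact mul_le_mul_of_nonneg_right i3 hPi
      _ = J * ((1 + aR p / p) * ∏ q ∈ P, (1 + aR q / q)) := by
          field_simp

theorem tele_Rho (w : ℕ) (hw : 1 ≤ w) (t : ℕ) :
    ∑ n ∈ Ioc w (w + t), aR n / n = 1 / (w : ℝ) - 1 / ((w + t : ℕ) : ℝ) := by
  induction t with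
  | zero => simp
  | succ t ih =>
    have h1 : w + (t + 1) = (w + t) + 1 := by ring
    rw [h1, Finset.sum_Ioc_succ_top (by omega), ih]
    have hw' : (1 : ℝ) ≤ ((w + t : ℕ) : ℝ) := by exact_mod_cast (by omega : 1 ≤ w + t)
    unfold aR
    push_cast at hw' ⊢
    have h2 : (w : ℝ) + t ≠ 0 := by linarith
    have h3 : (w : ℝ) + t + 1 ≠ 0 := by linarith
    have h4 : (w : ℝ) + t + 1 - 1 ≠ 0 := by linarith
    have h5 : (w : ℝ) ≠ 0 := by positivity
    have h6 : (w : ℝ) + t + 1 - 1 = w + t := by ring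
    rw [h6]
    field_simp
    ring

theorem hRho : StRho := by
  intro w W J hw hW hprime
  set P : Finset ℕ := (Ioc w J).filter Nat.Prime with hP
  have hPp : ∀ p ∈ P, p.Prime := fun p hp => (mem_filter.1 hp).2
  have hfW : 0 ≤ (W : ℝ) / Nat.totient W := by positivity
  have hterm : ∀ k ∈ Icc 1 J, (((W * (W * k) : ℕ) : ℝ) / Nat.totient (W * (W * k))) ≤
      ((W : ℝ) / Nat.totient W) * ∏ p ∈ P, (1 + if p ∣ k then aR p else 0) := by
    intro k hk
    rw [mem_Icc] at hk
    have hW0 : W ≠ 0 := by omega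
    have hk0 : k ≠ 0 := by omega
    have h1 : 1 ≤ W * (W * k) := Nat.mul_pos hW (Nat.mul_pos hW hk.1)
    rw [ratio_Rho _ h1, ratio_Rho W hW]
    have h2 : (W * (W * k)).primeFactors = W.primeFactors ∪ (k.primeFactors \ W.primeFactors) := by
      rw [Nat.primeFactors_mul hW0 (Nat.mul_ne_zero hW0 hk0), Nat.primeFactors_mul hW0 hk0]
      ext p
      simp only [mem_union, mem_sdiff]
      tauto
    rw [h2, Finset.prod_union disjoint_sdiff]
    have h3 : 0 ≤ ∏ p ∈ W.primeFactors, (1 + aR p) := by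
      refine Finset.prod_nonneg fun p hp => ?_
      have := aR_nonneg (Nat.prime_of_mem_primeFactors hp).one_le
      linarith
    refine mul_le_mul_of_nonneg_left ?_ h3
    have hsub : k.primeFactors \ W.primeFactors ⊆ P.filter (fun p => p ∣ k) := by
      intro p hp
      rw [mem_sdiff] at hp
      have hpp := Nat.prime_of_mem_primeFactors hp.1
      have hpk := Nat.dvd_of_mem_primeFactors hp.1
      rw [mem_filter, hP, mem_filter, mem_Ioc]
      refine ⟨⟨⟨?_, (Nat.le_of_dvd hk.1 hpk).trans hk.2⟩, hpp⟩, hpk⟩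
      by_contra hc
      push Not at hc
      exact hp.2 (Nat.mem_primeFactors.2 ⟨hpp, hprime p hpp hc, hW0⟩)
    have e : ∏ p ∈ P, (1 + if p ∣ k then aR p else 0) = ∏ p ∈ P.filter (fun p => p ∣ k), (1 + aR p) := by
      rw [Finset.prod_filter (fun p => p ∣ k) (fun p => 1 + aR p)]
      refine Finset.prod_congr rfl fun p _ => ?_
      split_ifs <;> simp
    rw [e, ← Finset.prod_sdiff hsub]
    have h4 : 1 ≤ ∏ p ∈ P.filter (fun p => p ∣ k) \ (k.primeFactors \ W.primeFactors), (1 + aR p) := by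
      refine Finset.prod_induction _ (fun x : ℝ => 1 ≤ x)
        (fun a b ha hb => one_le_mul_of_one_le_of_one_le ha hb) le_rfl fun p hp => ?_
      have hpp := hPp p (mem_filter.1 (mem_sdiff.1 hp).1).1
      have := aR_nonneg hpp.one_le
      linarith
    have h5 : 0 ≤ ∏ p ∈ k.primeFactors \ W.primeFactors, (1 + aR p) := by
      refine Finset.prod_nonneg fun p hp => ?_
      have := aR_nonneg (Nat.prime_of_mem_primeFactors (mem_sdiff.1 hp).1).one_le
      linarith
    exact le_mul_of_one_le_left h5 h4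
  have hB : ∏ p ∈ P, (1 + aR p / p) ≤ Real.exp (1 / w) := by
    have b1 : ∏ p ∈ P, (1 + aR p / p) ≤ ∏ p ∈ P, Real.exp (aR p / p) := by
      refine Finset.prod_le_prod (fun p hp => ?_) fun p hp => ?_
      · have := aR_nonneg (hPp p hp).one_le
        positivity
      · rw [add_comm]
        exact Real.add_one_le_exp _
    refine b1.trans ?_
    rw [← Real.exp_sum]
    refine Real.exp_le_exp.2 ?_
    have b2 : ∑ p ∈ P, aR p / p ≤ ∑ n ∈ Ioc w J, aR n / n := by
      refine Finset.sum_le_sum_of_subset_of_nonneg (filter_subset _ _) fun n hn _ => ?_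
      have := aR_nonneg (p := n) (by rw [mem_Ioc] at hn; omega)
      positivity
    refine b2.trans ?_
    rcases le_total J w with h | h
    · rw [Ioc_eq_empty (by omega), Finset.sum_empty]
      positivity
    · obtain ⟨t, rfl⟩ := Nat.exists_eq_add_of_le h
      rw [tele_Rho w hw t]
      have : (0 : ℝ) ≤ 1 / ((w + t : ℕ) : ℝ) := by positivity
      linarith
  calc ∑ k ∈ Icc 1 J, (((W * (W * k) : ℕ) : ℝ) / Nat.totient (W * (W * k)))
      ≤ ∑ k ∈ Icc 1 J, ((W : ℝ) / Nat.totient W) * ∏ p ∈ P, (1 + if p ∣ k then aR p else 0) :=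
        Finset.sum_le_sum hterm
    _ = ((W : ℝ) / Nat.totient W) * ∑ k ∈ Icc 1 J, ∏ p ∈ P, (1 + if p ∣ k then aR p else 0) := by
        rw [Finset.mul_sum]
    _ ≤ ((W : ℝ) / Nat.totient W) * (J * Real.exp (1 / w)) := by
        refine mul_le_mul_of_nonneg_left ((sum_Rho P hPp J).trans ?_) hfW
        exact mul_le_mul_of_nonneg_left hB (Nat.cast_nonneg J)
    _ = Real.exp (1 / w) * J * ((W : ℝ) / Nat.totient W) := by ring

end Pool.Agent.Helper79.PV
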